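import Pool.Agent.Helper63.XP.StA

/-!
# Project XP (MP_c973ff_an): module PRB, descendants in the product graph
-/

set_option autoImplicit false

namespace Pool.Agent.Helper16.XP

open Finset
open Pool.Agent.Helper63.XP
open Pool.Agent.Helper63.XR (gen)

section
variable {k : ℕ} {V W : Fin k → Type}

/-- the coordinates in `W` are those below the layer -/
theorem isRight_iff (u : PT V W) (j : Fin k) : (u.1 j).isRight = true ↔ (j : ℕ) < plev u := by
  constructor
  · intro h
    have h1 : Finset.Iic j ⊆ univ.filter fun i => (u.1 i).isRight = true := by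
      intro i hi
      rw [Finset.mem_Iic] at hi
      rw [Finset.mem_filter]
      refine ⟨mem_univ _, ?_⟩
      rcases hi.lt_or_eq with h2 | h2
      · exact u.2 i j h2 h
      · rw [h2]; exact h
    have h2 := Finset.card_le_card h1
    rw [Fin.card_Iic] at h2
    exact h2
  · intro h
    by_contra hc
    have h1 : (univ.filter fun i => (u.1 i).isRight = true) ⊆ Finset.Iio j := by
      intro i hi
      rw [Finset.mem_filter] at hi
      rw [Finset.mem_Iio]
      by_contra h2
      rw [not_lt] at h2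
      rcases h2.lt_or_eq with h3 | h3
      · exact hc (u.2 j i h3 hi.2)
      · exact hc (h3 ▸ hi.2)
    have h2 := Finset.card_le_card h1
    rw [Fin.card_Iio] at h2
    exact absurd h (not_lt.2 h2)

theorem plev_le (u : PT V W) : plev u ≤ k := by
  have h := Finset.card_filter_le (univ : Finset (Fin k)) fun j => (u.1 j).isRight = true
  rw [Finset.card_univ, Fintype.card_fin] at h
  exact h

theorem plev_eq_of (u : PT V W) (n : ℕ) (hn : n ≤ k)
    (h : ∀ j : Fin k, (u.1 j).isRight = true ↔ (j : ℕ) < n) : plev u = n := by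
  rcases lt_trichotomy (plev u) n with h1 | h1 | h1
  · exfalso
    have h2 := (h ⟨plev u, lt_of_lt_of_le h1 hn⟩).2 h1
    rw [isRight_iff] at h2
    exact lt_irrefl _ h2
  · exact h1
  · exfalso
    have h2 := (isRight_iff u ⟨n, lt_of_lt_of_le h1 (plev_le u)⟩).2 h1
    rw [h] at h2
    exact lt_irrefl _ h2

variable [∀ j, Fintype (V j)] [∀ j, Fintype (W j)]

/-- the children: the coordinate number `plev u` changes -/
theorem mem_pch_elim (ch : ∀ j, V j → Finset (W j)) (u c : PT V W) (h : c ∈ pch ch u) :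
    ∃ (hk : plev u < k) (v : V ⟨plev u, hk⟩) (w : W ⟨plev u, hk⟩), u.1 ⟨plev u, hk⟩ = Sum.inl v ∧
      c.1 ⟨plev u, hk⟩ = Sum.inr w ∧ w ∈ ch _ v ∧ (∀ i, i ≠ ⟨plev u, hk⟩ → c.1 i = u.1 i) ∧
      plev c = plev u + 1 := by
  classical
  unfold pch at h
  rw [Finset.mem_filter] at h
  obtain ⟨-, j, v, w, h1, h2, h3, h4⟩ := h
  have hnot : ¬ (j : ℕ) < plev u := by
    intro hlt
    have := (isRight_iff u j).2 hlt
    rw [h1] at this
    simp at this
  have hjc : (c.1 j).isRight = true := by rw [h2]; rfl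
  have hj : (j : ℕ) = plev u := by
    by_contra hne
    have hlt : plev u < (j : ℕ) := by omega
    have hk : plev u < k := lt_trans hlt j.2
    have hij : (⟨plev u, hk⟩ : Fin k) < j := hlt
    have h5 := c.2 _ _ hij hjc
    rw [h4 _ (ne_of_lt hij), isRight_iff] at h5
    exact lt_irrefl _ h5
  have hk : plev u < k := hj ▸ j.2
  obtain rfl : j = ⟨plev u, hk⟩ := Fin.ext hj
  refine ⟨hk, v, w, h1, h2, h3, h4, ?_⟩
  refine plev_eq_of c _ hk fun i => ?_
  by_cases hi : i = ⟨plev u, hk⟩
  · subst hi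
    constructor
    · intro _
      exact Nat.lt_succ_self _
    · intro _
      exact hjc
  · rw [h4 i hi, isRight_iff]
    have h6 : (i : ℕ) ≠ plev u := fun h => hi (Fin.ext h)
    omega

/-- the layer of a descendant, and its upper coordinates -/
theorem gen_upper (ch : ∀ j, V j → Finset (W j)) (t : PT V W) :
    ∀ (n : ℕ) (v : PT V W), v ∈ gen (pch ch) t n →
      plev v = plev t + n ∧ ∀ i : Fin k, plev t + n ≤ (i : ℕ) → v.1 i = t.1 i := by
  intro n
  induction n with
  | zero =>
    intro v hv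
    have hvt : v = t := by
      unfold gen at hv
      exact Finset.mem_singleton.1 hv
    subst hvt
    exact ⟨rfl, fun i _ => rfl⟩
  | succ n ih =>
    intro v hv
    unfold gen at hv
    rw [Finset.mem_biUnion] at hv
    obtain ⟨u, hu, hvu⟩ := hv
    obtain ⟨h1, h2⟩ := ih u hu
    obtain ⟨hk, a, w, -, -, -, h3, h4⟩ := mem_pch_elim ch u v hvu
    refine ⟨by omega, fun i hi => ?_⟩
    have hne : i ≠ ⟨plev u, hk⟩ := by
      intro h
      rw [h] at hi
      simp only at hi
      omega
    rw [h3 i hne]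
    exact h2 i (by omega)

/-- two vertices with a common child have the same layer and agree outside the coordinate of that number -/
theorem common_child (ch : ∀ j, V j → Finset (W j)) (u v c : PT V W) (hu : c ∈ pch ch u) (hv : c ∈ pch ch v) :
    plev u = plev v ∧ ∀ i : Fin k, (i : ℕ) ≠ plev u → u.1 i = v.1 i := by
  obtain ⟨hk, a, w, -, -, -, h3, h4⟩ := mem_pch_elim ch u c hu
  obtain ⟨hk', a', w', -, -, -, h3', h4'⟩ := mem_pch_elim ch v c hv
  have h5 : plev u = plev v := by omega
  refine ⟨h5, fun i hi => ?_⟩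
  rw [← h3 i fun h => hi (by rw [h]), ← h3' i fun h => hi (by rw [h, h5])]

/-- two vertices share at most one child -/
theorem share_pch (ch : ∀ j, V j → Finset (W j)) [∀ j, DecidableEq (W j)]
    (hs : ∀ j, ∀ a b, a ≠ b → (ch j a ∩ ch j b).card ≤ 1) (u v c c' : PT V W) (huv : u ≠ v)
    (hu : c ∈ pch ch u) (hv : c ∈ pch ch v) (hu' : c' ∈ pch ch u) (hv' : c' ∈ pch ch v) : c = c' := by
  obtain ⟨h5, h6⟩ := common_child ch u v c hu hv
  obtain ⟨hk, a, w, ha, hw, haw, h3, h4⟩ := mem_pch_elim ch u c hu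
  obtain ⟨hk', b, w', hb, hw', hbw', h3', h4'⟩ := mem_pch_elim ch v c hv
  obtain ⟨hk2, a2, x, ha2, hx, hax, h32, h42⟩ := mem_pch_elim ch u c' hu'
  obtain ⟨hk2', b2, x', hb2, hx', hbx', h32', h42'⟩ := mem_pch_elim ch v c' hv'
  have hjj : (⟨plev v, hk'⟩ : Fin k) = ⟨plev u, hk⟩ := Fin.ext h5.symm
  have key : ∀ (j : Fin k), j = ⟨plev u, hk⟩ → ∀ (b : V j) (w' : W j) (x' : W j) (b2 : V j), v.1 j = Sum.inl b →
      c.1 j = Sum.inr w' → w' ∈ ch j b → v.1 j = Sum.inl b2 → c'.1 j = Sum.inr x' → x' ∈ ch j b2 → c = c' := by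
    intro j hj b w' x' b2 e1 e2 e3 e4 e5 e6
    subst hj
    have e7 : w = w' := Sum.inr.inj (hw.symm.trans e2)
    have e8 : x = x' := Sum.inr.inj (hx.symm.trans e5)
    have e9 : b = b2 := Sum.inl.inj (e1.symm.trans e4)
    have e10 : a = a2 := Sum.inl.inj (ha.symm.trans ha2)
    subst e7 e8 e9 e10
    have hab : a ≠ b := by
      intro hab
      apply huv
      apply Subtype.ext
      funext i
      by_cases hi : (i : ℕ) = plev u
      · have hi' : i = ⟨plev u, hk⟩ := Fin.ext hi
        rw [hi', ha, e1, hab]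
      · exact h6 i hi
    have h1 := Finset.card_le_one.1 (hs _ a b hab) w (Finset.mem_inter.2 ⟨haw, e3⟩) x
      (Finset.mem_inter.2 ⟨hax, e6⟩)
    apply Subtype.ext
    funext i
    by_cases hi : i = ⟨plev u, hk⟩
    · rw [hi, hw, hx, h1]
    · rw [h3 i hi, h32 i hi]
  exact key _ hjj b w' x' b2 hb hw' hbw' hb2 hx' hbx'

end

/-- module PRB -/
theorem hPRB : StPrb := by
  intro k V W _ _ _ _ d m gg J Q B st
  constructor
  · intro t n u v hu hv huv
    rw [Finset.disjoint_left]
    intro c hcu hcv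
    apply huv
    obtain ⟨h1, h2⟩ := common_child _ u v c hcu hcv
    obtain ⟨h3, h4⟩ := gen_upper _ t n u hu
    obtain ⟨h5, h6⟩ := gen_upper _ t n v hv
    apply Subtype.ext
    funext i
    by_cases hi : (i : ℕ) = plev u
    · rw [h4 i (by omega), h6 i (by omega)]
    · exact h2 i hi
  · intro t n u hu
    rw [Finset.card_le_one]
    intro c hc c' hc'
    rw [Finset.mem_inter] at hc hc'
    obtain ⟨hcu, hct⟩ := hc
    obtain ⟨hcu', hct'⟩ := hc'
    unfold gen at hct hct'
    rw [Finset.mem_biUnion] at hct hct'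
    obtain ⟨v, hv, hcv⟩ := hct
    obtain ⟨v', hv', hcv'⟩ := hct'
    obtain ⟨h1, h2⟩ := common_child _ u v c hcu hcv
    obtain ⟨h1', h2'⟩ := common_child _ u v' c' hcu' hcv'
    obtain ⟨h3, h4⟩ := gen_upper _ t n v hv
    obtain ⟨h5, h6⟩ := gen_upper _ t n v' hv'
    have hvv : v = v' := by
      apply Subtype.ext
      funext i
      by_cases hi : (i : ℕ) = plev u
      · rw [h4 i (by omega), h6 i (by omega)]
      · rw [← h2 i hi, h2' i hi]
    subst hvv
    have huv : u ≠ v := fun h => hu (h ▸ hv)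
    exact share_pch _ (fun j => (st j).share) u v c c' huv hcu hcv hcu' hcv'

end Pool.Agent.Helper16.XP
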